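import Pool.Agent.LE.StmtsQX

/-!
# LMB: drift and gradient of `Λ(a)`
-/

set_option autoImplicit false

open MeasureTheory ProbabilityTheory Function Filter

open scoped ENNReal BigOperators Topology NNReal ComplexOrder Matrix

noncomputable section

namespace Pool.Agent.LE.QX.H22L

open Pool.Agent.Anderson hiding box mem_box card_box
open Pool.Agent.Loc Pool.Agent.Mob Pool.Agent.Helper54.Bal
  Pool.Agent.Helper96.EXP Pool.Agent.BED
open Pool.Agent.LE.MN Pool.Agent.LE.CL Pool.Agent.LE.IR Pool.Agent.LE.QD Pool.Agent.LE.QF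

variable {X : Type} [Fintype X] [DecidableEq X]

/-- the entries of a form which is not negative -/
theorem abs_ent_le {S : Matrix X X ℝ} {p : ℝ} (hS : ∀ a b, S a b = S b a)
    (hS0 : ∀ f, 0 ≤ qf S f) (hp : ∀ a, S a a ≤ p) (b c : X) : |S b c| ≤ p := by
  have key : ∀ t : ℝ, qf S (Pi.single b 1 + t • Pi.single c 1) =
      S b b + 2 * t * S b c + t ^ 2 * S c c := by
    intro t
    have e0 : ∀ f : X → ℝ, qf S f = f ⬝ᵥ (S *ᵥ f) := fun f => rfl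
    rw [e0, Matrix.mulVec_add, Matrix.mulVec_smul, Matrix.mulVec_single_one,
      Matrix.mulVec_single_one, add_dotProduct, smul_dotProduct, single_one_dotProduct,
      single_one_dotProduct]
    simp only [Pi.add_apply, Pi.smul_apply, Matrix.col_apply, smul_eq_mul]
    rw [hS c b]
    ring
  have h1 := hS0 (Pi.single b 1 + (1 : ℝ) • Pi.single c 1)
  have h2 := hS0 (Pi.single b 1 + (-1 : ℝ) • Pi.single c 1)
  rw [key] at h1 h2
  have hb := hp b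
  have hc := hp c
  rw [abs_le]
  constructor <;> nlinarith

omit [DecidableEq X] in
/-- the form of a matrix with bounded entries -/
theorem qf_le_of_abs {S : Matrix X X ℝ} {p s : ℝ} (hp0 : 0 ≤ p) (hS : ∀ b c, |S b c| ≤ p)
    {x : X → ℝ} (hx0 : ∀ b, 0 ≤ x b) (hx : ∑ b, x b ≤ s) : qf S x ≤ s ^ 2 * p := by
  have e1 : qf S x = ∑ b, ∑ c, x b * (S b c * x c) := by
    unfold QF.qf
    apply Finset.sum_congr rfl
    intro b _
    rw [Matrix.mulVec, dotProduct, Finset.mul_sum]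
  have e2 : (∑ b, x b) ^ 2 * p = ∑ b, ∑ c, x b * (p * x c) := by
    rw [sq, Finset.sum_mul_sum, Finset.sum_mul]
    apply Finset.sum_congr rfl
    intro b _
    rw [Finset.sum_mul]
    exact Finset.sum_congr rfl fun c _ => by ring
  rw [e1]
  have h1 : ∑ b, ∑ c, x b * (S b c * x c) ≤ ∑ b, ∑ c, x b * (p * x c) := by
    apply Finset.sum_le_sum
    intro b _
    apply Finset.sum_le_sum
    intro c _
    refine mul_le_mul_of_nonneg_left ?_ (hx0 b)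
    exact mul_le_mul_of_nonneg_right ((le_abs_self _).trans (hS b c)) (hx0 c)
  rw [← e2] at h1
  refine h1.trans ?_
  have h2 : 0 ≤ ∑ b, x b := Finset.sum_nonneg fun b _ => hx0 b
  exact mul_le_mul_of_nonneg_right (pow_le_pow_left₀ h2 hx 2) hp0

omit [DecidableEq X] in
/-- Cauchy-Schwarz -/
theorem dot_le (u w : X → ℂ) : ‖star u ⬝ᵥ w‖ ≤ Real.sqrt (n2 u) * Real.sqrt (n2 w) := by
  unfold dotProduct
  refine (norm_sum_le _ _).trans ?_
  have h := Real.sum_mul_le_sqrt_mul_sqrt Finset.univ (fun i => ‖u i‖) (fun i => ‖w i‖)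
  refine le_trans (le_of_eq ?_) h
  apply Finset.sum_congr rfl
  intro i _
  rw [norm_mul, Pi.star_apply, norm_star]

theorem lmb (nrb : NrbStmt) : LmbStmt := by
  intro C₀ hC₀
  obtain ⟨C₁, hC₁, hN⟩ := nrb C₀ hC₀
  have hC3 : 1 ≤ C₀ ^ 3 := one_le_pow₀ hC₀
  have hCC : 1 ≤ C₀ ^ 3 * C₁ := one_le_mul_of_one_le_of_one_le hC3 hC₁
  refine ⟨128 * (C₀ ^ 3 * C₁), by linarith, ?_⟩
  intro X _ _ G μ 𝒩 S κ τ δ N π₀ ε₁ ε₃ a hG hε₁ hε₃ hSs hS0 hSd hB hf
  obtain ⟨-, m2, m3, -, -, -⟩ := hN X G μ 𝒩 κ τ δ N hG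
  obtain ⟨hκ, hκ1, hτ, hκτ, hτκ⟩ := hG.hκ
  obtain ⟨hδ, hδ2, hN1⟩ := hG.hδ
  have hC₀0 : 0 < C₀ := by linarith
  have hC₁0 : 0 < C₁ := by linarith
  have hτi : 1 / τ ≤ C₀ / κ := by
    rw [div_le_div_iff₀ hτ hκ]
    linarith
  set K : Matrix X X ℝ := KK G with hKdef
  have hKab : ∀ a b, K a b = ‖G a b‖ ^ 2 := fun a b => rfl
  have hK0 : ∀ a b, 0 ≤ K a b := fun a b => sq_nonneg _
  have hKs : ∀ a b, K a b = K b a := fun a b => by rw [hKab, hKab, hG.hs]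
  have hKr : ∀ a, ∑ b, K a b ≤ 2 / τ := by
    intro a
    have h := (abs_le.mp (hG.hk a)).2
    rw [le_div_iff₀ hτ]
    have e : (∑ b, K a b) * τ = τ * ∑ b, ‖G a b‖ ^ 2 := mul_comm _ _
    rw [e]
    linarith
  set Λ : ℝ := ∑ b, K a b ^ 2 with hΛ
  have hΛ0 : 0 ≤ Λ := by
    rw [hΛ]
    positivity
  -- the cube
  have hcube : (K * K * K) a a = qf K (fun b => K a b) := by
    rw [Matrix.mul_assoc, Matrix.mul_apply]
    unfold QF.qf
    apply Finset.sum_congr rfl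
    intro b _
    rw [Matrix.mul_apply, Matrix.mulVec, dotProduct]
    congr 1
    exact Finset.sum_congr rfl fun c _ => by rw [hKs c a]
  set M3 : ℝ := (K * K * K) a a with hM3
  set x : X → ℝ := fun b => K a b with hxdef
  have hx0 : ∀ b, 0 ≤ x b := fun b => hK0 a b
  have hx2 : ∑ b, x b ^ 2 = Λ := rfl
  have hX : 0 < (Fintype.card X : ℝ) := by
    have : 0 < Fintype.card X := Fintype.card_pos_iff.mpr ⟨a⟩
    exact_mod_cast this
  -- the form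
  set c : ℝ := 1 / (κ * (Fintype.card X : ℝ)) with hc
  have hc0 : 0 < c := by
    rw [hc]
    positivity
  have hSaa : 0 ≤ S a a := by
    have h := hS0 (Pi.single a 1)
    have e : qf S (Pi.single a 1) = S a a := by
      have e0 : qf S (Pi.single a 1) = (Pi.single a 1 : X → ℝ) ⬝ᵥ (S *ᵥ Pi.single a 1) := rfl
      rw [e0, Matrix.mulVec_single_one, single_one_dotProduct]
      rfl
    rwa [e] at h
  have hp0 : 0 ≤ π₀ - c := by
    have := hSd a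
    linarith
  have hπ : 0 ≤ π₀ := by linarith
  have hSx : qf S x ≤ (2 / τ) ^ 2 * (π₀ - c) :=
    qf_le_of_abs hp0 (abs_ent_le hSs hS0 fun b => by
      have := hSd b
      linarith) hx0 (hKr a)
  have hPx : qf (P0 X) x ≤ (2 / τ) ^ 2 * (Fintype.card X : ℝ)⁻¹ :=
    qf_le_of_abs (inv_nonneg.mpr hX.le) (fun b c => by
      unfold P0
      rw [abs_of_nonneg (inv_nonneg.mpr hX.le)]) hx0 (hKr a)
  have hM2 : M3 ≤ 8 * C₀ ^ 3 / κ * (π₀ / κ + ε₃ * Λ) := by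
    have h1 : τ * M3 ≤ ε₃ * Λ + τ * qf S x + qf (P0 X) x := by
      rw [hcube]
      exact hf x
    have h2 : M3 ≤ 1 / τ * (ε₃ * Λ) + qf S x + 1 / τ * qf (P0 X) x := by
      have h3 : M3 = 1 / τ * (τ * M3) := by
        field_simp
      rw [h3]
      refine (mul_le_mul_of_nonneg_left h1 (by positivity)).trans (le_of_eq ?_)
      field_simp
    have s1 : 2 / τ ≤ 2 * C₀ / κ := by
      have := mul_le_mul_of_nonneg_left hτi (show (0:ℝ) ≤ 2 by norm_num)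
      calc 2 / τ = 2 * (1 / τ) := by ring
        _ ≤ 2 * (C₀ / κ) := this
        _ = _ := by ring
    have s0 : 0 ≤ 2 / τ := by positivity
    have s2 : (2 / τ) ^ 2 ≤ (2 * C₀ / κ) ^ 2 := pow_le_pow_left₀ s0 s1 2
    have a1 : qf S x ≤ (2 * C₀ / κ) ^ 2 * (π₀ - c) :=
      hSx.trans (mul_le_mul_of_nonneg_right s2 hp0)
    have a2 : 1 / τ * qf (P0 X) x ≤ C₀ / κ * ((2 * C₀ / κ) ^ 2 * (Fintype.card X : ℝ)⁻¹) := by
      have h4 : qf (P0 X) x ≤ (2 * C₀ / κ) ^ 2 * (Fintype.card X : ℝ)⁻¹ :=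
        hPx.trans (mul_le_mul_of_nonneg_right s2 (inv_nonneg.mpr hX.le))
      calc 1 / τ * qf (P0 X) x ≤ 1 / τ * ((2 * C₀ / κ) ^ 2 * (Fintype.card X : ℝ)⁻¹) :=
            mul_le_mul_of_nonneg_left h4 (by positivity)
        _ ≤ _ := mul_le_mul_of_nonneg_right hτi (by positivity)
    have a3 : 1 / τ * (ε₃ * Λ) ≤ C₀ / κ * (ε₃ * Λ) :=
      mul_le_mul_of_nonneg_right hτi (by positivity)
    have b2 : C₀ / κ * ((2 * C₀ / κ) ^ 2 * (Fintype.card X : ℝ)⁻¹) = 4 * C₀ ^ 3 / κ ^ 2 * c := by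
      rw [hc]
      field_simp
      ring
    have b1 : (2 * C₀ / κ) ^ 2 * (π₀ - c) ≤ 4 * C₀ ^ 3 / κ ^ 2 * (π₀ - c) := by
      refine mul_le_mul_of_nonneg_right ?_ hp0
      have : C₀ ^ 2 ≤ C₀ ^ 3 := pow_le_pow_right₀ hC₀ (by norm_num)
      rw [div_pow, mul_pow]
      have h5 : (2:ℝ) ^ 2 * C₀ ^ 2 ≤ 4 * C₀ ^ 3 := by linarith
      gcongr
    have c3 : C₀ / κ * (ε₃ * Λ) ≤ 8 * C₀ ^ 3 / κ * (ε₃ * Λ) := by
      have h6 : C₀ ≤ C₀ ^ 3 := le_self_pow₀ hC₀ (by norm_num)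
      have : C₀ ≤ 8 * C₀ ^ 3 := by linarith
      gcongr
    have e : 8 * C₀ ^ 3 / κ * (π₀ / κ + ε₃ * Λ) = 4 * C₀ ^ 3 / κ ^ 2 * (π₀ - c) +
        4 * C₀ ^ 3 / κ ^ 2 * c + 4 * C₀ ^ 3 / κ ^ 2 * π₀ + 8 * C₀ ^ 3 / κ * (ε₃ * Λ) := by
      field_simp
      ring
    have e2 : 0 ≤ 4 * C₀ ^ 3 / κ ^ 2 * π₀ := by positivity
    rw [e]
    linarith
  -- the product with `E_K`
  have hns : Real.sqrt (Λ * (δ ^ 2 * (N + δ ^ 2 / κ))) =
      Real.sqrt Λ * Real.sqrt (δ ^ 2 * (N + δ ^ 2 / κ)) := Real.sqrt_mul hΛ0 _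
  have hGDs : ∀ b, GD G μ b a = GD G μ a b := by
    intro b
    unfold GD
    rw [Matrix.mul_assoc, Matrix.mul_apply, Matrix.mul_apply]
    apply Finset.sum_congr rfl
    intro c _
    rw [Matrix.diagonal_mul, Matrix.diagonal_mul, hG.hs b c, hG.hs c a]
    ring
  have hEK : ∑ b, EK G μ b a ^ 2 ≤ (2 * C₀ ^ 2 * C₁ / κ) ^ 2 * (δ ^ 2 * (N + δ ^ 2 / κ)) := by
    have g1 : ∀ b, EK G μ b a ^ 2 ≤ 4 * (K a b * ‖GD G μ a b‖ ^ 2) := by
      intro b
      have h := Complex.abs_re_le_norm ((starRingEnd ℂ) (G b a) * GD G μ b a)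
      rw [norm_mul, RCLike.norm_conj, hG.hs b a, hGDs] at h
      have h2 : ((starRingEnd ℂ) (G a b) * GD G μ a b).re ^ 2 ≤
          (‖G a b‖ * ‖GD G μ a b‖) ^ 2 := by
        rw [← sq_abs]
        exact pow_le_pow_left₀ (abs_nonneg _) h 2
      have e : EK G μ b a = 2 * ((starRingEnd ℂ) (G a b) * GD G μ a b).re := by
        unfold EK
        rw [hG.hs b a, hGDs]
      rw [e, hKab, mul_pow]
      calc (2:ℝ) ^ 2 * ((starRingEnd ℂ) (G a b) * GD G μ a b).re ^ 2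
          ≤ (2:ℝ) ^ 2 * (‖G a b‖ * ‖GD G μ a b‖) ^ 2 := by gcongr
        _ = _ := by ring
    have hsδ : 0 ≤ C₀ * δ := by positivity
    have g2 := m2 μ (C₀ * δ) hsδ hG.hμ
    have g3 := m3 μ (C₀ * δ) hsδ hG.hμ a
    have g4 : ∀ b, K a b * ‖GD G μ a b‖ ^ 2 ≤
        (if b ∈ 𝒩 a then C₀ ^ 2 * (C₁ * (C₀ * δ) / κ) ^ 2 else 0) +
          (C₀ * δ) ^ 2 * ‖GD G μ a b‖ ^ 2 := by
      intro b
      rw [hKab]
      split_ifs with hb
      · have h1 : ‖G a b‖ ^ 2 ≤ C₀ ^ 2 := pow_le_pow_left₀ (norm_nonneg _) (hG.hG a b) 2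
        have h2 : ‖GD G μ a b‖ ^ 2 ≤ (C₁ * (C₀ * δ) / κ) ^ 2 :=
          pow_le_pow_left₀ (norm_nonneg _) (g2 a b) 2
        have h3 : ‖G a b‖ ^ 2 * ‖GD G μ a b‖ ^ 2 ≤ C₀ ^ 2 * (C₁ * (C₀ * δ) / κ) ^ 2 :=
          mul_le_mul h1 h2 (by positivity) (by positivity)
        have h4 : 0 ≤ (C₀ * δ) ^ 2 * ‖GD G μ a b‖ ^ 2 := by positivity
        linarith
      · have h1 : ‖G a b‖ ^ 2 ≤ (C₀ * δ) ^ 2 :=
          pow_le_pow_left₀ (norm_nonneg _) ((hG.hn a b).2 hb) 2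
        rw [zero_add]
        exact mul_le_mul_of_nonneg_right h1 (by positivity)
    have g5 : ∑ b, K a b * ‖GD G μ a b‖ ^ 2 ≤
        N * (C₀ ^ 2 * (C₁ * (C₀ * δ) / κ) ^ 2) +
          (C₀ * δ) ^ 2 * (C₁ * (C₀ * δ) ^ 2 / κ ^ 3) := by
      refine (Finset.sum_le_sum fun b _ => g4 b).trans ?_
      rw [Finset.sum_add_distrib, ← Finset.mul_sum, ← Finset.sum_filter, Finset.sum_const,
        nsmul_eq_mul]
      have h5 : ((Finset.univ.filter fun b => b ∈ 𝒩 a).card : ℝ) ≤ N := by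
        rw [Finset.filter_univ_mem]
        exact hG.hN a
      gcongr
    calc ∑ b, EK G μ b a ^ 2 ≤ ∑ b, 4 * (K a b * ‖GD G μ a b‖ ^ 2) :=
          Finset.sum_le_sum fun b _ => g1 b
      _ = 4 * ∑ b, K a b * ‖GD G μ a b‖ ^ 2 := by rw [Finset.mul_sum]
      _ ≤ 4 * (N * (C₀ ^ 2 * (C₁ * (C₀ * δ) / κ) ^ 2) +
          (C₀ * δ) ^ 2 * (C₁ * (C₀ * δ) ^ 2 / κ ^ 3)) := by gcongr
      _ = 4 * C₀ ^ 4 * C₁ ^ 2 / κ ^ 2 * δ ^ 2 * N + 4 * C₀ ^ 4 * δ ^ 4 / κ ^ 3 * C₁ := by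
          field_simp
      _ ≤ 4 * C₀ ^ 4 * C₁ ^ 2 / κ ^ 2 * δ ^ 2 * N + 4 * C₀ ^ 4 * δ ^ 4 / κ ^ 3 * C₁ ^ 2 := by
          have : C₁ ≤ C₁ ^ 2 := le_self_pow₀ hC₁ (by norm_num)
          gcongr
      _ = _ := by
          field_simp
          ring
  have hKE : (K * EK G μ) a a ≤
      2 * C₀ ^ 2 * C₁ / κ * Real.sqrt (Λ * (δ ^ 2 * (N + δ ^ 2 / κ))) := by
    rw [Matrix.mul_apply, hns]
    refine (Real.sum_mul_le_sqrt_mul_sqrt Finset.univ (fun b => K a b)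
      (fun b => EK G μ b a)).trans ?_
    have h1 := Real.sqrt_le_sqrt hEK
    rw [Real.sqrt_mul (by positivity), Real.sqrt_sq (by positivity)] at h1
    calc Real.sqrt (∑ b, K a b ^ 2) * Real.sqrt (∑ b, EK G μ b a ^ 2)
        ≤ Real.sqrt Λ * (2 * C₀ ^ 2 * C₁ / κ * Real.sqrt (δ ^ 2 * (N + δ ^ 2 / κ))) :=
          mul_le_mul_of_nonneg_left h1 (Real.sqrt_nonneg _)
      _ = _ := by ring
  -- the third term
  have hBB : (∑ b, ∑ c, (starRingEnd ℂ) (BB G a b) * BB G a c * BB G c b).re ≤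
      ε₁ / τ * Λ := by
    have e1 : (∑ b, ∑ c, (starRingEnd ℂ) (BB G a b) * BB G a c * BB G c b) =
        star (fun b => BB G a b) ⬝ᵥ (BB G *ᵥ fun b => BB G a b) := by
      unfold dotProduct
      apply Finset.sum_congr rfl
      intro b _
      rw [Matrix.mulVec, dotProduct, Finset.mul_sum]
      apply Finset.sum_congr rfl
      intro c _
      have : BB G c b = BB G b c := by
        unfold QF.BB
        rw [hG.hs c b]
      rw [this, Pi.star_apply]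
      simp only [starRingEnd_apply]
      ring
    have e2 : n2 (fun b => BB G a b) = Λ := by
      unfold n2
      rw [hΛ]
      apply Finset.sum_congr rfl
      intro b _
      rw [hKab]
      unfold QF.BB
      rw [norm_pow]
    rw [e1]
    refine (Complex.re_le_norm _).trans ((dot_le _ _).trans ?_)
    have h1 := Real.sqrt_le_sqrt (hB fun b => BB G a b)
    rw [Real.sqrt_mul (by positivity), Real.sqrt_sq (by positivity), e2] at h1
    rw [e2]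
    calc Real.sqrt Λ * Real.sqrt (n2 (BB G *ᵥ fun b => BB G a b))
        ≤ Real.sqrt Λ * (ε₁ / τ * Real.sqrt Λ) :=
          mul_le_mul_of_nonneg_left h1 (Real.sqrt_nonneg _)
      _ = ε₁ / τ * (Real.sqrt Λ * Real.sqrt Λ) := by ring
      _ = _ := by rw [Real.mul_self_sqrt hΛ0]
  have hBB2 : ε₁ / τ * Λ ≤ C₀ / κ * (ε₁ * Λ) := by
    have h5 : 0 ≤ ε₁ * Λ := by positivity
    calc ε₁ / τ * Λ = 1 / τ * (ε₁ * Λ) := by ring
      _ ≤ _ := mul_le_mul_of_nonneg_right hτi h5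
  -- comparison of the constants
  have q1 : 0 ≤ π₀ / κ + ε₃ * Λ := by positivity
  have k1 : 8 * C₀ ^ 3 / κ ≤ 8 * (C₀ ^ 3 * C₁) / κ := by
    have : C₀ ^ 3 ≤ C₀ ^ 3 * C₁ := le_mul_of_one_le_right (by positivity) hC₁
    gcongr
  have hM4 : M3 ≤ 8 * (C₀ ^ 3 * C₁) / κ * (π₀ / κ + ε₃ * Λ) :=
    hM2.trans (mul_le_mul_of_nonneg_right k1 q1)
  constructor
  · have k2 : 2 * C₀ ^ 2 * C₁ / κ ≤ 2 * (C₀ ^ 3 * C₁) / κ := by
      have : C₀ ^ 2 * C₁ ≤ C₀ ^ 3 * C₁ :=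
        mul_le_mul_of_nonneg_right (pow_le_pow_right₀ hC₀ (by norm_num)) hC₁0.le
      rw [mul_assoc]
      gcongr
    have k3 : C₀ / κ ≤ (C₀ ^ 3 * C₁) / κ := by
      have h6 : C₀ ≤ C₀ ^ 3 := le_self_pow₀ hC₀ (by norm_num)
      have : C₀ ^ 3 ≤ C₀ ^ 3 * C₁ := le_mul_of_one_le_right (by positivity) hC₁
      have := h6.trans this
      gcongr
    set D : ℝ := C₀ ^ 3 * C₁
    set R : ℝ := Real.sqrt (Λ * (δ ^ 2 * (N + δ ^ 2 / κ))) with hRdef
    have hR0 : 0 ≤ R := Real.sqrt_nonneg _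
    have r1 : (K * EK G μ) a a ≤ 2 * D / κ * R :=
      hKE.trans (mul_le_mul_of_nonneg_right k2 hR0)
    have r2 : (∑ b, ∑ c, (starRingEnd ℂ) (BB G a b) * BB G a c * BB G c b).re ≤
        D / κ * (ε₁ * Λ) :=
      (hBB.trans hBB2).trans (mul_le_mul_of_nonneg_right k3 (by positivity))
    unfold lLa
    rw [← hKdef, ← hM3]
    have hD0 : 0 ≤ D / κ := by positivity
    have w1 : 0 ≤ D / κ * (π₀ / κ) := by positivity
    have w3 : 0 ≤ D / κ * (ε₃ * Λ) := by positivity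
    have w4 : 0 ≤ D / κ * (ε₁ * Λ) := by positivity
    have w5 : 0 ≤ D / κ * R := by positivity
    have f1 : 8 * D / κ * (π₀ / κ + ε₃ * Λ) = 8 * (D / κ * (π₀ / κ)) +
        8 * (D / κ * (ε₃ * Λ)) := by ring
    have f2 : 2 * D / κ * R = 2 * (D / κ * R) := by ring
    have f3 : 128 * D / κ * (π₀ / κ + (ε₃ + ε₁) * Λ + R) =
        128 * (D / κ * (π₀ / κ)) + 128 * (D / κ * (ε₃ * Λ)) +
          128 * (D / κ * (ε₁ * Λ)) + 128 * (D / κ * R) := by ring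
    rw [f1] at hM4
    rw [f2] at r1
    rw [f3]
    linarith
  · -- the gradient
    have hgr : ∀ c, (2 * ∑ b, K a b * dK G c a b) ^ 2 ≤ 16 * Λ * (K a c * ∑ b, K c b * K b a) := by
      intro c
      have h1 : |∑ b, K a b * dK G c a b| ≤ 2 * ‖G a c‖ * ∑ b, K a b * (‖G a b‖ * ‖G c b‖) := by
        refine (Finset.abs_sum_le_sum_abs _ _).trans ?_
        rw [Finset.mul_sum]
        apply Finset.sum_le_sum
        intro b _
        rw [abs_mul, abs_of_nonneg (hK0 a b)]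
        have h2 : |dK G c a b| ≤ 2 * (‖G a b‖ * ‖G a c‖ * ‖G c b‖) := by
          unfold dK
          rw [abs_neg, abs_mul, abs_of_nonneg (show (0:ℝ) ≤ 2 by norm_num)]
          have := Complex.abs_re_le_norm ((starRingEnd ℂ) (G a b) * G a c * G c b)
          rw [norm_mul, norm_mul, RCLike.norm_conj] at this
          linarith
        calc K a b * |dK G c a b| ≤ K a b * (2 * (‖G a b‖ * ‖G a c‖ * ‖G c b‖)) :=
              mul_le_mul_of_nonneg_left h2 (hK0 a b)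
          _ = _ := by ring
      have h3 : (∑ b, K a b * (‖G a b‖ * ‖G c b‖)) ^ 2 ≤ Λ * ∑ b, K c b * K b a := by
        refine (Finset.sum_mul_sq_le_sq_mul_sq _ _ _).trans ?_
        refine mul_le_mul_of_nonneg_left (le_of_eq ?_) hΛ0
        apply Finset.sum_congr rfl
        intro b _
        rw [mul_pow, ← hKab, ← hKab, hKs a b]
        ring
      have h4 : (∑ b, K a b * dK G c a b) ^ 2 ≤
          (2 * ‖G a c‖ * ∑ b, K a b * (‖G a b‖ * ‖G c b‖)) ^ 2 := by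
        rw [← sq_abs]
        exact pow_le_pow_left₀ (abs_nonneg _) h1 2
      calc (2 * ∑ b, K a b * dK G c a b) ^ 2 = 4 * (∑ b, K a b * dK G c a b) ^ 2 := by ring
        _ ≤ 4 * (2 * ‖G a c‖ * ∑ b, K a b * (‖G a b‖ * ‖G c b‖)) ^ 2 := by linarith
        _ = 16 * ‖G a c‖ ^ 2 * (∑ b, K a b * (‖G a b‖ * ‖G c b‖)) ^ 2 := by ring
        _ ≤ 16 * ‖G a c‖ ^ 2 * (Λ * ∑ b, K c b * K b a) := by gcongr
        _ = _ := by rw [← hKab]; ring
    have hs3 : ∑ c, K a c * ∑ b, K c b * K b a = M3 := by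
      rw [hM3, Matrix.mul_assoc, Matrix.mul_apply]
      exact Finset.sum_congr rfl fun c _ => by rw [Matrix.mul_apply]
    calc ∑ c, (2 * ∑ b, K a b * dK G c a b) ^ 2
        ≤ ∑ c, 16 * Λ * (K a c * ∑ b, K c b * K b a) := Finset.sum_le_sum fun c _ => hgr c
      _ = 16 * Λ * M3 := by rw [← Finset.mul_sum, hs3]
      _ ≤ 16 * Λ * (8 * (C₀ ^ 3 * C₁) / κ * (π₀ / κ + ε₃ * Λ)) := by gcongr
      _ = _ := by ring

end Pool.Agent.LE.QX.H22L
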